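import Mathlib
import Pool.Agent.LeoK.CntDefs

/-!
# Integral binary cubic forms of negative discriminant at every real place (squad LEOG)

MP_5f2860_nt.  `v = (A, B, C, D)` is the form `A x³ + B x² y + C x y² + D y³`.
-/

set_option autoImplicit false

open NumberField IsDedekindDomain Module MeasureTheory
open Pool.Agent.LeoK

namespace Pool.Agent.LeoG

section forms

variable {A : Type} [CommRing A]

/-- The discriminant. -/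
def dsc (v : Q4 A) : A :=
  v 1 ^ 2 * v 2 ^ 2 - 4 * v 0 * v 2 ^ 3 - 4 * v 1 ^ 3 * v 3 - 27 * v 0 ^ 2 * v 3 ^ 2 +
    18 * v 0 * v 1 * v 2 * v 3

/-- `m = - disc`. -/
def mm (v : Q4 A) : A := -dsc v

/-- The value of the form. -/
def gval (v : Q4 A) (X Y : A) : A :=
  v 0 * X ^ 3 + v 1 * X ^ 2 * Y + v 2 * X * Y ^ 2 + v 3 * Y ^ 3

/-- The value of the Hessian `(B² - 3AC, BC - 9AD, C² - 3BD)`. -/
def ghes (v : Q4 A) (X Y : A) : A :=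
  (v 1 ^ 2 - 3 * v 0 * v 2) * X ^ 2 + (v 1 * v 2 - 9 * v 0 * v 3) * X * Y +
    (v 2 ^ 2 - 3 * v 1 * v 3) * Y ^ 2

/-- The value of the cubic covariant: `gcov² + 27 disc gval² = 4 ghes³`. -/
def gcov (v : Q4 A) (X Y : A) : A :=
  (2 * v 1 ^ 3 - 9 * v 0 * v 1 * v 2 + 27 * v 0 ^ 2 * v 3) * X ^ 3 +
    3 * (v 1 ^ 2 * v 2 + 9 * v 0 * v 1 * v 3 - 6 * v 0 * v 2 ^ 2) * X ^ 2 * Y -
    3 * (v 1 * v 2 ^ 2 + 9 * v 0 * v 2 * v 3 - 6 * v 1 ^ 2 * v 3) * X * Y ^ 2 -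
    (2 * v 2 ^ 3 - 9 * v 1 * v 2 * v 3 + 27 * v 0 * v 3 ^ 2) * Y ^ 3

/-- The form `g (x X + y Y, z X + w Y)`. -/
def gact (v : Q4 A) (x y z w : A) : Q4 A :=
  ![gval v x z,
    3 * v 0 * x ^ 2 * y + v 1 * (x ^ 2 * w + 2 * x * y * z) + v 2 * (2 * x * z * w + y * z ^ 2) +
      3 * v 3 * z ^ 2 * w,
    3 * v 0 * x * y ^ 2 + v 1 * (2 * x * y * w + y ^ 2 * z) + v 2 * (x * w ^ 2 + 2 * y * z * w) +
      3 * v 3 * z * w ^ 2,
    gval v y w]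

/-- The mirror image `g (- x, y)`. -/
def gmir (v : Q4 A) : Q4 A := ![-v 0, v 1, -v 2, v 3]

/-- no nontrivial zero. -/
def GIrr (v : Q4 A) : Prop := ∀ X Y : A, gval v X Y = 0 → X = 0 ∧ Y = 0

end forms

/-! ## Real forms with one real root -/

/-- The sum of two cubes `(u₀ X + u₁ Y)³ + (u₂ X + u₃ Y)³`. -/
def th (u : Fin 4 → ℝ) : Q4 ℝ :=
  ![u 0 ^ 3 + u 2 ^ 3, 3 * (u 0 ^ 2 * u 1 + u 2 ^ 2 * u 3), 3 * (u 0 * u 1 ^ 2 + u 2 * u 3 ^ 2),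
    u 1 ^ 3 + u 3 ^ 3]

/-- The determinant of the two linear forms. -/
def dt (u : Fin 4 → ℝ) : ℝ := u 0 * u 3 - u 1 * u 2

/-- The size of the vector `(X, Y)` for a real form with negative discriminant: if
`v = l₁³ + l₂³` with real linear forms then `hz v X Y = (l₁² + l₂²) / (2 |det (l₁, l₂)|)`. -/
noncomputable def hz (v : Q4 ℝ) (X Y : ℝ) : ℝ :=
  (|(gval v X Y + gcov v X Y / Real.sqrt (27 * mm v)) / 2| ^ (2 / 3 : ℝ) +
    |(gval v X Y - gcov v X Y / Real.sqrt (27 * mm v)) / 2| ^ (2 / 3 : ℝ)) /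
    (2 * (mm v / 27) ^ (1 / 6 : ℝ))

variable {k : Type} [Field k] [NumberField k]

/-- The form at a real place. -/
def rl (s : Sg k) (v : Q4 (𝓞 k)) : Q4 ℝ := fun i => s (v i : k)

/-- The sizes of a vector at all places. -/
noncomputable def hg (v : Q4 (𝓞 k)) (X Y : 𝓞 k) : Sg k → ℝ :=
  fun s => hz (rl s v) (s (X : k)) (s (Y : k))

/-- The region of normalised forms: `G` is the domain for `B / (3A)`. -/
structure GReg (Φ : Frame k) (G : Set (Sg k → ℝ)) (Z T : ℝ) (v : Q4 (𝓞 k)) : Prop where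
  ane : v 0 ≠ 0
  bG : (fun s : Sg k => s (v 1 : k) / (3 * s (v 0 : k))) ∈ G
  mF : lam ((mm v : 𝓞 k) : k) ∈ Φ.F
  xF : hg v 1 0 ∈ Φ.F
  mZ : ∏ s : Sg k, s ((mm v : 𝓞 k) : k) ≤ Z
  xT : ∏ s : Sg k, hg v 1 0 s ≤ T

end Pool.Agent.LeoG
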