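import Mathlib
import Pool.Agent.LeoK.UpStmts
import Pool.Agent.LeoG.Defs

/-!
# Module statements of the upper bound, forms of negative discriminant (squad LEOG)
-/

set_option autoImplicit false

open NumberField IsDedekindDomain Module MeasureTheory Filter Topology
open Pool.Agent.LeoK

namespace Pool.Agent.LeoG

/-! ## One real place -/

/-- IDN: polynomial identities. -/
def IdnStmt : Prop :=
  ∀ (A : Type) [CommRing A] (v : Q4 A),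
    (∀ X Y : A, gcov v X Y ^ 2 + 27 * dsc v * gval v X Y ^ 2 = 4 * ghes v X Y ^ 3) ∧
    (∀ x y z w : A, dsc (gact v x y z w) = (x * w - y * z) ^ 6 * dsc v ∧
      (∀ X Y : A, gval (gact v x y z w) X Y = gval v (x * X + y * Y) (z * X + w * Y)) ∧
      (∀ X Y : A, ghes (gact v x y z w) X Y =
        (x * w - y * z) ^ 2 * ghes v (x * X + y * Y) (z * X + w * Y)) ∧
      (∀ X Y : A, gcov (gact v x y z w) X Y =
        (x * w - y * z) ^ 3 * gcov v (x * X + y * Y) (z * X + w * Y)) ∧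
      ∀ x' y' z' w' : A, gact (gact v x y z w) x' y' z' w' =
        gact v (x * x' + y * z') (x * y' + y * w') (z * x' + w * z') (z * y' + w * w'))

/-- THU: the sum of two cubes. -/
def ThuStmt : Prop :=
  ∀ u : Fin 4 → ℝ, mm (th u) = 27 * dt u ^ 6 ∧
    (∀ X Y : ℝ, gval (th u) X Y = (u 0 * X + u 1 * Y) ^ 3 + (u 2 * X + u 3 * Y) ^ 3) ∧
    (dt u ≠ 0 → ∀ X Y : ℝ,
      hz (th u) X Y = ((u 0 * X + u 1 * Y) ^ 2 + (u 2 * X + u 3 * Y) ^ 2) / (2 * |dt u|))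

/-- THB: `th` is a bijection from `det > 0` onto the forms of negative discriminant. -/
def ThbStmt : Prop :=
  (∀ v : Q4 ℝ, 0 < mm v → ∃ u : Fin 4 → ℝ, 0 < dt u ∧ th u = v) ∧
    ∀ u u' : Fin 4 → ℝ, 0 < dt u → 0 < dt u' → th u = th u' → u = u'

/-- PSH: push forward of Lebesgue measure on the forms under `(B / (3A), hz v 1 0, m)`: density
`π`. -/
def PshStmt : Prop :=
  ∀ h : ℝ × ℝ × ℝ → ENNReal, Measurable h →
    (∫⁻ w : Fin 4 → ℝ in {w | w 0 ≠ 0 ∧ 0 < mm w}, h (w 1 / (3 * w 0), hz w 1 0, mm w)) =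
      ∫⁻ u : ℝ × ℝ × ℝ in {u | 0 < u.2.1 ∧ 0 < u.2.2}, h u * ENNReal.ofReal Real.pi

/-- VOL: volume of a region of forms over all real places. -/
def VolStmt : Prop :=
  ∀ (σ : Type) [Fintype σ] (G A M : Set (σ → ℝ)), MeasurableSet G → MeasurableSet A →
    MeasurableSet M → (∀ x ∈ A, ∀ s, 0 < x s) → (∀ x ∈ M, ∀ s, 0 < x s) →
    volume {w : σ → Fin 4 → ℝ | (∀ s, w s 0 ≠ 0) ∧ (∀ s, 0 < mm (w s)) ∧
        (fun s => w s 1 / (3 * w s 0)) ∈ G ∧ (fun s => hz (w s) 1 0) ∈ A ∧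
        (fun s => mm (w s)) ∈ M} =
      ENNReal.ofReal (Real.pi ^ Fintype.card σ) * volume G * volume A * volume M

/-- KET: the compact set of the main part and its volume. -/
def KetStmt : Prop :=
  ∀ (k : Type) [Field k] [NumberField k], IsTotallyReal k → ∀ (Φ : Frame k) (T η : ℝ), 0 < T →
    0 < η → ∃ K : Set (Sg k → Fin 4 → ℝ), IsCompact K ∧
      (volume K).toReal ≤ Real.pi ^ finrank ℚ k * Φ.D * (T * Φ.vF) * Φ.vF ∧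
      ∀ w : Sg k → Fin 4 → ℝ, (∀ s, η ≤ |w s 0|) → (∀ s, 0 < mm (w s)) →
        (fun s => w s 1 / (3 * w s 0)) ∈ ZSpan.fundamentalDomain Φ.B →
        (fun s => hz (w s) 1 0) ∈ Φ.F → ∏ s, hz (w s) 1 0 ≤ T →
        (fun s => mm (w s)) ∈ Φ.F → η ≤ ∏ s, mm (w s) → ∏ s, mm (w s) ≤ 1 → w ∈ K

/-- UPP: upper bound for the number of normalised forms in given residue classes, with
`|A| ≥ η m^(1/4)` at every place. -/
def UppStmt : Prop :=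
  ∀ (k : Type) [Field k] [NumberField k], IsTotallyReal k → ∀ (Φ : Frame k) (N : Ideal (𝓞 k)),
    N ≠ ⊥ → ∀ (S : Set (Q4 (𝓞 k ⧸ N))) (T η ε : ℝ), 0 < T → 0 < η → η ≤ 1 → 0 < ε →
    ∃ Z₀ : ℝ, 1 ≤ Z₀ ∧ ∀ Z : ℝ, Z₀ ≤ Z →
      {v : Q4 (𝓞 k) | modQ N v ∈ S ∧ GReg Φ (ZSpan.fundamentalDomain Φ.B) Z T v ∧
        (∀ s : Sg k, η * s ((mm v : 𝓞 k) : k) ^ (1 / 4 : ℝ) ≤ |s (v 0 : k)|) ∧
        η * Z ≤ ∏ s : Sg k, s ((mm v : 𝓞 k) : k)}.Finite ∧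
      ({v : Q4 (𝓞 k) | modQ N v ∈ S ∧ GReg Φ (ZSpan.fundamentalDomain Φ.B) Z T v ∧
        (∀ s : Sg k, η * s ((mm v : 𝓞 k) : k) ^ (1 / 4 : ℝ) ≤ |s (v 0 : k)|) ∧
        η * Z ≤ ∏ s : Sg k, s ((mm v : 𝓞 k) : k)}.ncard : ℝ) ≤
        ((S.ncard : ℝ) / (Ideal.absNorm N : ℝ) ^ 4 *
          (Real.pi ^ finrank ℚ k * T * Φ.vF ^ 2 / Φ.D ^ 3) + ε) * Z

/-! ## The crude count -/

/-- REA: real inequalities at one place. -/
def ReaStmt : Prop :=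
  (∀ v : Q4 ℝ, 0 < mm v → |v 0| ≤ 2 * (hz v 1 0 ^ (3 / 2 : ℝ) * mm v ^ (1 / 4 : ℝ)) ∧
    |v 1 ^ 2 - 3 * v 0 * v 2| ≤ 2 * (hz v 1 0 * Real.sqrt (mm v))) ∧
  ∀ κ : ℝ, 1 ≤ κ → ∃ C : ℝ, 0 < C ∧ ∀ a b c M ξ : ℝ, a ≠ 0 → 0 < M → 0 < ξ →
    ∃ α : Fin 3 → ℝ, ∀ d : ℝ, 0 < mm ![a, b, c, d] →
      M ≤ κ * mm ![a, b, c, d] → mm ![a, b, c, d] ≤ κ * M →
      ξ ≤ κ * hz ![a, b, c, d] 1 0 → hz ![a, b, c, d] 1 0 ≤ κ * ξ →
      ∃ i, α i ≤ d ∧ d ≤ α i + C * (M ^ (1 / 4 : ℝ) / ξ ^ (3 / 2 : ℝ))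

/-- The forms of one dyadic cell. -/
def gcell {k : Type} [Field k] [NumberField k] (cF R M ξ : ℝ) : Set (Q4 (𝓞 k)) :=
  {v | v 0 ≠ 0 ∧ (∀ s : Sg k, |s (v 1 : k)| ≤ R * |s (v 0 : k)|) ∧
    (∀ s : Sg k, 0 < s ((mm v : 𝓞 k) : k)) ∧
    (∀ s : Sg k, M ≤ cF * s ((mm v : 𝓞 k) : k) ∧ s ((mm v : 𝓞 k) : k) ≤ 2 * cF * M) ∧
    (∀ s : Sg k, ξ ≤ cF * hg v 1 0 s ∧ hg v 1 0 s ≤ 2 * cF * ξ)}

/-- CEL: one dyadic cell; moreover the cell is empty if `ξ^(3/2) M^(1/4)` is small. -/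
def CelStmt : Prop :=
  ∀ (k : Type) [Field k] [NumberField k], IsTotallyReal k → ∀ (cF R ξ₀ : ℝ), 1 ≤ cF → 0 < R →
    0 < ξ₀ → ∃ C : ℝ, 0 < C ∧ ∀ M ξ : ℝ, 1 / 2 ≤ M → 0 < ξ → ξ ≤ ξ₀ →
      (gcell (k := k) cF R M ξ).Finite ∧
      ((gcell (k := k) cF R M ξ).ncard : ℝ) ≤ C * ξ ^ finrank ℚ k * M ^ finrank ℚ k ∧
      ((gcell (k := k) cF R M ξ).Nonempty → 1 ≤ C * (ξ ^ (3 / 2 : ℝ) * M ^ (1 / 4 : ℝ)))

/-- CRU: crude uniform bound for the number of normalised forms. -/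
def CruStmt : Prop :=
  ∀ (k : Type) [Field k] [NumberField k], IsTotallyReal k → ∀ (Φ : Frame k) (R T₀ : ℝ), 0 < R →
    0 < T₀ → ∃ C : ℝ, 0 < C ∧ ∀ Z T : ℝ, 1 ≤ Z → 0 < T → T ≤ T₀ →
      {v : Q4 (𝓞 k) | GReg Φ {x | ∀ s, |x s| ≤ R} Z T v}.Finite ∧
      ({v : Q4 (𝓞 k) | GReg Φ {x | ∀ s, |x s| ≤ R} Z T v}.ncard : ℝ) ≤ C * T * Z

/-! ## Local densities -/

/-- LD5: forms modulo `p²` with nonzero discriminant, `p` prime to 6. -/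
def Ld5Stmt : Prop :=
  ∀ (k : Type) [Field k] [NumberField k] (p : HeightOneSpectrum (𝓞 k)), (6 : 𝓞 k) ∉ p.asIdeal →
    (Nat.card {v : Q4 (𝓞 k ⧸ p.asIdeal ^ 2) // dsc v ≠ 0} : ℝ) =
      np p ^ 8 * (1 - 1 / np p ^ 2) ^ 2

/-- LD2: forms over a finite field of characteristic 2 with nonzero discriminant. -/
def Ld2Stmt : Prop :=
  ∀ (A : Type) [Field A] [Fintype A], (2 : A) = 0 →
    (Nat.card {v : Q4 A // dsc v ≠ 0} : ℝ) =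
      (Fintype.card A : ℝ) ^ 4 * (1 - 1 / (Fintype.card A : ℝ) ^ 2) * (1 - 1 / (Fintype.card A : ℝ))

/-- LD3: forms over a finite field of characteristic 3 whose discriminant is not a square. -/
def Ld3Stmt : Prop :=
  ∀ (A : Type) [Field A] [Fintype A], (3 : A) = 0 →
    (Nat.card {v : Q4 A // ∀ x : A, x ^ 2 ≠ dsc v} : ℝ) =
      (Fintype.card A : ℝ) ^ 4 * (1 - 1 / (Fintype.card A : ℝ) ^ 2) *
        ((1 - 1 / (Fintype.card A : ℝ)) / 2)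

/-- DEN: the residue classes of forms with the local conditions at the primes of a finite set. -/
def DenStmt : Prop :=
  ∀ (k : Type) [Field k] [NumberField k] (Q : Finset (HeightOneSpectrum (𝓞 k))),
    ∃ S : Set (Q4 (𝓞 k ⧸ ∏ p ∈ Q, p.asIdeal ^ 2)),
      (∀ v : Q4 (𝓞 k), (∀ p ∈ Q, LocOK p (mm v)) → modQ (∏ p ∈ Q, p.asIdeal ^ 2) v ∈ S) ∧
      (S.ncard : ℝ) / (Ideal.absNorm (∏ p ∈ Q, p.asIdeal ^ 2) : ℝ) ^ 4 ≤ ∏ p ∈ Q, df p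

end Pool.Agent.LeoG
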