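import Mathlib
import Pool.Agent.LeoG.Defs

/-!
# Squad LEOG: algebraic part over an arbitrary number field

`K = k(√(3m))`, `-m` not a square at the primes above 3.  An element of the minus part of the Selmer
type group of `K` which is not a cube gives an integral binary cubic form over `𝓞 k` of discriminant
`-m` without zeros.  No hypothesis on `k` (signature, class number, roots of unity).

Paper: PAPER_LEOG_ALG.md.
-/

set_option autoImplicit false

open NumberField IsDedekindDomain WithZero Module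
open Pool.Agent.Helper85_Leo Pool.Agent.Leo3 Pool.Agent.LeoK

namespace Pool.Agent.LeoG

/-- `-x` is not a square in any completion of `k` above 3. -/
def Three (k : Type) [Field k] (x : k) : Prop :=
  ∀ (φ : k →+* Om) (y : Om), InLoc φ y → y ^ 2 ≠ -φ x

/-- The admissible `m` (any number field, any signs). -/
structure AdmG (k : Type) [Field k] [NumberField k] (m : 𝓞 k) : Prop where
  sqf : Squarefree (Ideal.span {m})
  two : ∃ q : 𝓞 k, (4 : 𝓞 k) ∣ q ^ 2 + m
  three : Three k (m : k)
  nsq : ∀ x : k, x ^ 2 ≠ 3 * (m : k)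

/-! ## Approximation: `z` modulo cubes -/

/-- APL: an element which is a cube in all completions above 3 is close to 1 there, up to a cube. -/
def AplStmt : Prop :=
  ∀ (K : Type) [Field K] [NumberField K] (z : K), z ≠ 0 → LocCube z → ∀ N : ℕ,
    ∃ t : K, t ≠ 0 ∧ ∀ P : HeightOneSpectrum (𝓞 K), (3 : 𝓞 K) ∈ P.asIdeal →
      P.valuation K (z * t ^ 3 - 1) ≤ P.valuation K ((3 : K) ^ N)

/-- API: clearing denominators, and the ideal. -/
def ApiStmt : Prop :=
  ∀ (K : Type) [Field K] [NumberField K] (z : K), z ≠ 0 → ValCube3 z →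
    (∀ P : HeightOneSpectrum (𝓞 K), (3 : 𝓞 K) ∈ P.asIdeal →
      P.valuation K (z - 1) ≤ P.valuation K ((3 : K) ^ 2)) →
    ∃ (n : ℕ) (y : 𝓞 K) (I : Ideal (𝓞 K)), n ≠ 0 ∧ (y : K) = z * (n : K) ^ 3 ∧ y ≠ 0 ∧
      (9 : 𝓞 K) ∣ y - 1 ∧ Ideal.span {y} = I ^ 3

/-! ## The order `{x : x - c x ∈ 𝓞 k s}`, `s² = 3m`, and its ideals -/

/-- `x - c x` is in `𝓞 k s`. -/
def OrdR {k K : Type} [Field k] [Field K] [Algebra k K] (s : K) (c : K ≃ₐ[k] K) (x : 𝓞 K) : Prop :=
  ∃ y : 𝓞 k, (x : K) - c x = algebraMap k K (y : k) * s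

/-- QRG: conjugation; three times an integer is in the order; the element `(q + s) / 2`. -/
def QrgStmt : Prop :=
  ∀ (k K : Type) [Field k] [NumberField k] [Field K] [NumberField K] [Algebra k K] (m : 𝓞 k)
    (s : K), finrank k K = 2 → s ^ 2 = algebraMap k K (3 * (m : k)) →
    (∀ x : k, x ^ 2 ≠ 3 * (m : k)) → Squarefree (Ideal.span {m}) →
    (∃ q : 𝓞 k, (4 : 𝓞 k) ∣ q ^ 2 + m) →
    ∃ c : K ≃ₐ[k] K, c s = -s ∧
      (∀ x : 𝓞 K, ∃ y : 𝓞 k, 3 * ((x : K) - c x) = algebraMap k K (y : k) * s) ∧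
      ∃ w : 𝓞 K, (w : K) - c w = s

/-- BSG: an ideal of principal norm, prime to 3, contains `u, v` in the order with
`u c(v) - v c(u) = ν s`. -/
def BsgStmt : Prop :=
  ∀ (k K : Type) [Field k] [NumberField k] [Field K] [NumberField K] [Algebra k K] (s : K)
    (c : K ≃ₐ[k] K), finrank k K = 2 → s ≠ 0 → c s = -s →
    (∀ x : 𝓞 K, ∃ y : 𝓞 k, 3 * ((x : K) - c x) = algebraMap k K (y : k) * s) →
    (∃ w : 𝓞 K, (w : K) - c w = s) →
    ∀ (I : Ideal (𝓞 K)) (ν : 𝓞 k), ν ≠ 0 → (∃ a ∈ I, (3 : 𝓞 K) ∣ a - 1) →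
      I * conjI (c : K ≃+* K) I = Ideal.span {algebraMap (𝓞 k) (𝓞 K) ν} →
      ∃ u v : 𝓞 K, u ∈ I ∧ v ∈ I ∧ OrdR s c u ∧ OrdR s c v ∧
        (u : K) * c v - (v : K) * c u = algebraMap k K (ν : k) * s

/-! ## The form -/

/-- CBG: the integral form `g` with `3 g(x, y) s = (x u + y v)³ / z - conj` and `- disc g = m`. -/
def CbgStmt : Prop :=
  ∀ (k K : Type) [Field k] [NumberField k] [Field K] [NumberField K] [Algebra k K] (m : 𝓞 k)
    (s : K) (c : K ≃ₐ[k] K), finrank k K = 2 → s ≠ 0 → s ^ 2 = algebraMap k K (3 * (m : k)) →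
    c s = -s → (∀ x : 𝓞 K, ∃ y : 𝓞 k, 3 * ((x : K) - c x) = algebraMap k K (y : k) * s) →
    ∀ (u v z : 𝓞 K) (ν : 𝓞 k), ν ≠ 0 → z ≠ 0 → OrdR s c u → OrdR s c v →
      (u : K) * c v - (v : K) * c u = algebraMap k K (ν : k) * s →
      (z : K) * c z = algebraMap k K (ν : k) ^ 3 → (9 : 𝓞 K) ∣ z - 1 →
      z ∣ u ^ 3 → z ∣ u ^ 2 * v → z ∣ u * v ^ 2 → z ∣ v ^ 3 →
      ∃ g : Q4 (𝓞 k), mm g = m ∧ ∀ x y : k,
        algebraMap k K (gval (fun i => (g i : k)) x y) * (3 * s) =
          (algebraMap k K x * u + algebraMap k K y * v) ^ 3 / z -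
            c ((algebraMap k K x * u + algebraMap k K y * v) ^ 3 / z)

/-- IRG: the form has no zeros if `z` is not a cube. -/
def IrgStmt : Prop :=
  ∀ (k K : Type) [Field k] [CharZero k] [Field K] [Algebra k K] (s : K) (c : K ≃ₐ[k] K),
    finrank k K = 2 → s ≠ 0 → c s = -s → ∀ (u v z : K) (ν : k) (g : Q4 k), ν ≠ 0 → z ≠ 0 →
      u * c v - v * c u = algebraMap k K ν * s → z * c z = algebraMap k K ν ^ 3 →
      (∀ t : K, t ^ 3 ≠ z) →
      (∀ x y : k, algebraMap k K (gval g x y) * (3 * s) =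
          (algebraMap k K x * u + algebraMap k K y * v) ^ 3 / z -
            c ((algebraMap k K x * u + algebraMap k K y * v) ^ 3 / z)) → GIrr g

/-- STG: if the relative Selmer type group of `K = k(√(3m))` does not vanish then there is a form
without zeros of discriminant `-m`. -/
def StgStmt : Prop :=
  ∀ (k K : Type) [Field k] [NumberField k] [Field K] [NumberField K] [Algebra k K] (m : 𝓞 k) (r : K),
    finrank k K = 2 → r ^ 2 = algebraMap k K (3 * (m : k)) → AdmG k m → ¬ WMinus k K →
    ∃ g : Q4 (𝓞 k), GIrr g ∧ mm g = m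

/-! ## Leopoldt's conjecture -/

/-- MUM: if a completion of `K` above 3 contains a cube root of unity `t ≠ 1` then the completion
of `k` below contains `t` and does not contain `r`. -/
def MumStmt : Prop :=
  ∀ (k K : Type) [Field k] [CharZero k] [Field K] [Algebra k K] (m : k) (r : K),
    finrank k K = 2 → r ^ 2 = algebraMap k K (3 * m) → (∀ x : k, x ^ 2 ≠ 3 * m) → Three k m →
    ∀ (φ : K →+* Om) (t : Om), InLoc φ t → t ^ 3 = 1 → t ≠ 1 →
      InLoc (φ.comp (algebraMap k K)) t ∧
        ∃ ρ : Om ≃ₐ[ℚ_[3]] Om, FixF (φ.comp (algebraMap k K)) ρ ∧ ρ (φ r) = -φ r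

/-- LRG: relative Leopoldt conjecture at 3. -/
def LrgStmt : Prop :=
  ∀ (k K : Type) [Field k] [NumberField k] [Field K] [NumberField K] [Algebra k K] (m : k) (r : K),
    finrank k K = 2 → r ^ 2 = algebraMap k K (3 * m) → (∀ x : k, x ^ 2 ≠ 3 * m) → Three k m →
    WMinus k K → LeopoldtAt k 3 → LeopoldtAt K 3

/-- TWG: going up along Galois extensions `M / k` of 3-power degree. -/
def TwgStmt : Prop :=
  ∀ (k K M L : Type) [Field k] [NumberField k] [Field K] [NumberField K] [Field M] [NumberField M]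
    [Field L] [NumberField L] [Algebra k K] [Algebra k M] [Algebra k L] [Algebra K L] [Algebra M L]
    [IsScalarTower k K L] [IsScalarTower k M L] [IsGalois k M] (j : ℕ) (m : k) (r : K),
    finrank k K = 2 → finrank k M = 3 ^ j → finrank M L = 2 → TameNonsplit k K M →
    r ^ 2 = algebraMap k K (3 * m) → (∀ x : k, x ^ 2 ≠ 3 * m) → Three k m → WMinus k K →
      Three M (algebraMap k M m) ∧ WMinus M L

/-- What is proved for a quadratic extension `K / k`: the relative Selmer type group vanishes;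
Leopoldt's conjecture at 3 for `k` implies the same for `K`, and it also goes up from `M` to
`L = K M` for every Galois extension `M / k` of 3-power degree whose tame ramified primes have only
one prime of `K` above them; if `k` has no local cube roots of unity and vanishing Selmer type
group then so does `K`, and then Leopoldt's conjecture at 3 holds for all Galois extensions of `K`
of 3-power degree unramified outside 3. -/
structure GoodG (k K : Type) [Field k] [NumberField k] [Field K] [NumberField K] [Algebra k K] :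
    Prop where
  wminus : WMinus k K
  leo : LeopoldtAt k 3 → LeopoldtAt K 3
  tower : ∀ (M L : Type) [Field M] [NumberField M] [Field L] [NumberField L] [Algebra k M]
    [Algebra k L] [Algebra K L] [Algebra M L] [IsScalarTower k K L] [IsScalarTower k M L]
    [IsGalois k M] (j : ℕ), finrank k M = 3 ^ j → finrank M L = 2 → TameNonsplit k K M →
    LeopoldtAt M 3 → LeopoldtAt L 3
  rat : NoMu k → W3 k → NoMu K ∧ W3 K ∧ LeopoldtAt K 3 ∧
    ∀ (E : Type) [Field E] [NumberField E] [Algebra K E] [IsGalois K E] (j : ℕ),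
      finrank K E = 3 ^ j → UnrOut3 K E → LeopoldtAt E 3

/-- ING: for `K = k(√(3m))` with vanishing relative group: everything that follows. -/
def IngStmt : Prop :=
  ∀ (k K : Type) [Field k] [NumberField k] [Field K] [NumberField K] [Algebra k K] (m : 𝓞 k) (r : K),
    finrank k K = 2 → r ^ 2 = algebraMap k K (3 * (m : k)) → AdmG k m → WMinus k K → GoodG k K

/-- OBG: consequence of LEOK STAB / ORB (with `b = B / 3`) for the counting of marks: the form `v`
in the bases `(x, z), (y, w)` and `(x', z'), (y', w')` of determinant `±1`: if the forms agree up to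
a translation then the first vectors and the determinants agree. -/
def ObgStmt : Prop :=
  ∀ (k : Type) [Field k] [CharZero k] (v : Q4 k), GIrr v → (∀ x : k, x ^ 2 ≠ -mm v) →
    ∀ x y z w x' y' z' w' t : k,
    (x * w - y * z) ^ 2 = 1 → (x' * w' - y' * z') ^ 2 = 1 →
    (∀ X Y : k, gval v (x * X + y * Y) (z * X + w * Y) =
      gval v (x' * (X + t * Y) + y' * Y) (z' * (X + t * Y) + w' * Y)) →
      x = x' ∧ z = z' ∧ x * w - y * z = x' * w' - y' * z'

/-- THN: `Three` implies that `-m` is not a square in `k`. -/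
def ThnStmt : Prop :=
  ∀ (k : Type) [Field k] [NumberField k] (m : k), Three k m → ∀ x : k, x ^ 2 ≠ -m

end Pool.Agent.LeoG
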