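import Mathlib
import Pool.Agent.LeoK.CountStmts
import Pool.Agent.LeoG.UpStmts
import Pool.Agent.LeoG.AlgStmts

/-!
# Counting part, forms of negative discriminant at every real place (squad LEOG, module statements)

Reused from `Pool.Agent.LeoK` (all proved there): VOR, LTL, PCK, LTZ, REP, PIK, RES, LM2, LMU, LM3,
PRC, MRC, `Mset`, USQ, MST, MSA, MSQ.  Paper: PAPER_LEOG_COUNT.md.
-/

set_option autoImplicit false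

open NumberField IsDedekindDomain Module MeasureTheory Filter Topology
open Pool.Agent.LeoK

namespace Pool.Agent.LeoG

/-! ## Forms at a real place -/

/-- HZA: the size of a vector under linear substitutions, scaling, positivity; the mirror image. -/
def HzaStmt : Prop :=
  ∀ v : Q4 ℝ, 0 < mm v →
    (∀ x y z w : ℝ, x * w - y * z ≠ 0 → ∀ X Y : ℝ,
      hz (gact v x y z w) X Y = hz v (x * X + y * Y) (z * X + w * Y) / |x * w - y * z|) ∧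
    (∀ t X Y : ℝ, hz v (t * X) (t * Y) = t ^ 2 * hz v X Y) ∧
    (∀ X Y : ℝ, (X ≠ 0 ∨ Y ≠ 0) → 0 < hz v X Y) ∧
    (mm (gmir v) = mm v ∧ ∀ X Y : ℝ, gval (gmir v) X Y = gval v (-X) Y ∧
      hz (gmir v) X Y = hz v (-X) Y)

/-- ROT: a real form as a sum of cubes of the coordinates of a complex linear form. -/
def RotStmt : Prop :=
  ∀ v : Q4 ℝ, 0 < mm v → ∃ z₁ z₂ : ℂ, |(starRingEnd ℂ z₁ * z₂).im| = 1 / 2 ∧
    ∀ X Y : ℝ, ‖(X : ℂ) * z₁ + (Y : ℂ) * z₂‖ ^ 2 = hz v X Y ∧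
      mm v ^ (1 / 4 : ℝ) * |((X : ℂ) * z₁ + (Y : ℂ) * z₂).re ^ 3 +
        ((X : ℂ) * z₁ + (Y : ℂ) * z₂).im ^ 3| ≤ |gval v X Y|

/-- The region of the marks. -/
def GD {k : Type} [Field k] [NumberField k] (Φ : Frame k) (η : ℝ) : Set (Sg k → ℂ) :=
  {w | (fun s => ‖w s‖ ^ 2) ∈ interior (Φ.F ∩ {x | ∏ s, x s ≤ 1}) ∧
    ∀ s, η < |(w s).re ^ 3 + (w s).im ^ 3|}

/-- VOD: volume of the region of the marks. -/
def VodStmt : Prop :=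
  ∀ (k : Type) [Field k] [NumberField k], IsTotallyReal k → ∀ (Φ : Frame k) (ε : ℝ), 0 < ε →
    ∃ η : ℝ, 0 < η ∧ IsOpen (GD Φ η) ∧ Bornology.IsBounded (GD Φ η) ∧
      Real.pi ^ finrank ℚ k * Φ.vF - ε ≤ (volume (GD Φ η)).toReal

/-! ## Marks -/

/-- The good marks of a form. -/
def Mks {k : Type} [Field k] [NumberField k] (Φ : Frame k) (T η : ℝ) (v : Q4 (𝓞 k)) :
    Set (𝓞 k × 𝓞 k) :=
  {p | IsCoprime p.1 p.2 ∧ hg v p.1 p.2 ∈ Φ.F ∧ ∏ s, hg v p.1 p.2 s ≤ T ∧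
    ∀ s : Sg k, η * s ((mm v : 𝓞 k) : k) ^ (1 / 4 : ℝ) ≤ |s ((gval v p.1 p.2 : 𝓞 k) : k)|}

/-- A form of negative discriminant at every place without short vectors. -/
structure Lrg {k : Type} [Field k] [NumberField k] (δ : ℝ) (v : Q4 (𝓞 k)) : Prop where
  posM : ∀ s : Sg k, 0 < s ((mm v : 𝓞 k) : k)
  short : ∀ X Y : 𝓞 k, (X ≠ 0 ∨ Y ≠ 0) → δ ≤ ∏ s, hg v X Y s

/-- LWT: the vectors divisible by a prime. -/
def LwtStmt : Prop :=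
  ∀ (k : Type) [Field k] [NumberField k], IsTotallyReal k → ∀ (Φ : Frame k) (δ : ℝ), 0 < δ →
    ∃ A : ℝ, 0 < A ∧ ∀ v : Q4 (𝓞 k), Lrg δ v → ∀ T : ℝ, 0 < T →
    {p : 𝓞 k × 𝓞 k | hg v p.1 p.2 ∈ Φ.F ∧ ∏ s, hg v p.1 p.2 s ≤ T}.Finite ∧
    ∀ q : HeightOneSpectrum (𝓞 k),
      ({p : 𝓞 k × 𝓞 k | p.1 ∈ q.asIdeal ∧ p.2 ∈ q.asIdeal ∧ hg v p.1 p.2 ∈ Φ.F ∧
        ∏ s, hg v p.1 p.2 s ≤ T}.ncard : ℝ) ≤ A * T / np q ^ 2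

/-- LWA: the good vectors which are primitive at the primes of `Q`. -/
def LwaStmt : Prop :=
  ∀ (k : Type) [Field k] [NumberField k], IsTotallyReal k → ∀ (Φ : Frame k) (ε : ℝ), 0 < ε →
    ∃ η : ℝ, 0 < η ∧ ∀ (δ : ℝ) (Q : Finset (HeightOneSpectrum (𝓞 k))), 0 < δ →
    ∃ T₀ : ℝ, 0 < T₀ ∧ ∀ T : ℝ, T₀ ≤ T → ∀ v : Q4 (𝓞 k), Lrg δ v →
    (∏ p ∈ Q, (1 - 1 / np p ^ 2)) * ((2 * Real.pi) ^ finrank ℚ k * Φ.vF - ε) * T / Φ.D ^ 2 ≤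
      ({p : 𝓞 k × 𝓞 k | (∀ q ∈ Q, ¬ (p.1 ∈ q.asIdeal ∧ p.2 ∈ q.asIdeal)) ∧
        hg v p.1 p.2 ∈ Φ.F ∧ ∏ s, hg v p.1 p.2 s ≤ T ∧
        ∀ s : Sg k, η * s ((mm v : 𝓞 k) : k) ^ (1 / 4 : ℝ) ≤
          |s ((gval v p.1 p.2 : 𝓞 k) : k)|}.ncard : ℝ)

/-- LOW: many good marks. -/
def LowStmt : Prop :=
  ∀ (k : Type) [Field k] [NumberField k], IsTotallyReal k → ∀ (Φ : Frame k) (δ ε : ℝ), 0 < δ →
    0 < ε → ∃ T η : ℝ, 0 < T ∧ 0 < η ∧ η ≤ 1 ∧ ∀ v : Q4 (𝓞 k), Lrg δ v → (Mks Φ T η v).Finite ∧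
    (1 - ε) * (Pk k * (2 * Real.pi) ^ finrank ℚ k * Φ.vF * T / Φ.D ^ 2) ≤
      ((Mks Φ T η v).ncard : ℝ)

/-! ## Forms and marks -/

/-- The normalised forms with given `m` and large first coefficient. -/
def Wset {k : Type} [Field k] [NumberField k] (Φ : Frame k) (T η : ℝ) (m : 𝓞 k) :
    Set (Q4 (𝓞 k)) :=
  {w | mm w = m ∧ w 0 ≠ 0 ∧
    (fun s : Sg k => s (w 1 : k) / (3 * s (w 0 : k))) ∈ ZSpan.fundamentalDomain Φ.B ∧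
    hg w 1 0 ∈ Φ.F ∧ ∏ s : Sg k, hg w 1 0 s ≤ T ∧
    ∀ s : Sg k, η * s ((mm w : 𝓞 k) : k) ^ (1 / 4 : ℝ) ≤ |s (w 0 : k)|}

/-- INJ: the marks of a form without zeros and of its mirror image give different forms. -/
def InjStmt : Prop :=
  ∀ (k : Type) [Field k] [NumberField k], IsTotallyReal k → ∀ (Φ : Frame k) (T η : ℝ)
    (v : Q4 (𝓞 k)), GIrr v → (∀ s : Sg k, 0 < s ((mm v : 𝓞 k) : k)) →
    (Wset Φ T η (mm v)).Finite →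
    (Mks Φ T η v).ncard + (Mks Φ T η (gmir v)).ncard ≤ (Wset Φ T η (mm v)).ncard

/-- NRF: normalisation of a form by a unit and a translation. -/
def NrfStmt : Prop :=
  ∀ (k : Type) [Field k] [NumberField k], IsTotallyReal k → ∀ (Φ : Frame k) (v : Q4 (𝓞 k)),
    v 0 ≠ 0 → (∀ s : Sg k, 0 < s ((mm v : 𝓞 k) : k)) →
    ∃ w : Q4 (𝓞 k), mm w = mm v ∧ w 0 ≠ 0 ∧
      (fun s : Sg k => s (w 1 : k) / (3 * s (w 0 : k))) ∈ ZSpan.fundamentalDomain Φ.B ∧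
      hg w 1 0 ∈ Φ.F ∧ ∏ s : Sg k, hg w 1 0 s = ∏ s : Sg k, hg v 1 0 s

/-- SMV: a short vector gives a form with small first basis vector. -/
def SmvStmt : Prop :=
  ∀ (k : Type) [Field k] [NumberField k], IsTotallyReal k → ∃ (N₀ : ℕ) (A : ℝ), 0 < N₀ ∧ 0 < A ∧
    ∀ (v : Q4 (𝓞 k)) (X Y : 𝓞 k), GIrr v → (∀ s : Sg k, 0 < s ((mm v : 𝓞 k) : k)) →
    (X ≠ 0 ∨ Y ≠ 0) → ∃ w : Q4 (𝓞 k), mm w = (N₀ : 𝓞 k) ^ 6 * mm v ∧ w 0 ≠ 0 ∧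
      ∏ s : Sg k, hg w 1 0 s ≤ A * ∏ s, hg v X Y s

/-- EXC: few `m` have a form with a short vector. -/
def ExcStmt : Prop :=
  ∀ (k : Type) [Field k] [NumberField k], IsTotallyReal k → ∀ Φ : Frame k, ∃ A : ℝ, 0 < A ∧
    ∀ δ Z : ℝ, 0 < δ → δ ≤ 1 → 1 ≤ Z →
    ({m : 𝓞 k | lam (m : k) ∈ Φ.F ∧ ∏ s : Sg k, s (m : k) ≤ Z ∧
      ∃ (v : Q4 (𝓞 k)) (X Y : 𝓞 k), mm v = m ∧ GIrr v ∧ (X ≠ 0 ∨ Y ≠ 0) ∧
        ∏ s, hg v X Y s < δ}.ncard : ℝ) ≤ A * δ * Z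

/-- CNT: the theorem of the counting part. -/
def CntStmt : Prop :=
  ∀ (k : Type) [Field k] [NumberField k], IsTotallyReal k → ∀ Φ : Frame k,
    (∀ Z : ℝ, (Mset Φ Z).Finite) ∧
    (∃ c : ℝ, 0 < c ∧ ∀ᶠ Z : ℝ in atTop, c * Z ≤ ((Mset Φ Z).ncard : ℝ)) ∧
    ∀ ε : ℝ, 0 < ε → ∀ᶠ Z : ℝ in atTop,
      ({m | m ∈ Mset Φ Z ∧ ((∃ x : k, x ^ 2 = 3 * (m : k)) ∨
        ∃ v : Q4 (𝓞 k), GIrr v ∧ mm v = m)}.ncard : ℝ) ≤ (1 / 2 + ε) * ((Mset Φ Z).ncard : ℝ)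

/-! ## The interface of the counting part -/

/-- ADG: the local conditions of the family give the admissibility of the algebraic part. -/
def AdgStmt : Prop :=
  ∀ (k : Type) [Field k] [NumberField k] (m : 𝓞 k),
    (∀ p : HeightOneSpectrum (𝓞 k), LocOK p m) → (∃ q : 𝓞 k, (4 : 𝓞 k) ∣ q ^ 2 + m) →
    (∀ x : k, x ^ 2 ≠ 3 * (m : k)) → AdmG k m

/-- KCG: for a totally real field `k` there are `≥ c Z` admissible `m` of norm at most `Z`,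
balanced, totally positive, pairwise different modulo squares, without a form of discriminant
`-m`. -/
def KcgStmt : Prop :=
  ∀ (k : Type) [Field k] [NumberField k], IsTotallyReal k →
    ∃ c B : ℝ, 0 < c ∧ ∀ᶠ Z : ℝ in atTop, ∃ S : Finset (𝓞 k), c * Z ≤ S.card ∧
      (∀ m ∈ S, AdmG k m ∧ ((Algebra.norm ℤ m).natAbs : ℝ) ≤ Z ∧ (∀ φ : k →+* ℝ, 0 < φ m) ∧
        (∀ φ ψ : k →+* ℝ, φ m ≤ B * ψ m) ∧ ¬ ∃ v : Q4 (𝓞 k), GIrr v ∧ mm v = m) ∧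
      (∀ m ∈ S, ∀ m' ∈ S, IsSquare ((m : k) * m') → m = m')

end Pool.Agent.LeoG
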